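import Pool.Agent.GRA.StmtsK
import Pool.Agent.Helper64_FR.FIN

/-!
# Squad GRA, row KNZ
-/

set_option autoImplicit false

open MeasureTheory Matrix Finset
open scoped ComplexConjugate

namespace Pool.Agent.GRA.H89

open Pool.Agent.Helper64_FR Pool.Agent.UTR Pool.Agent.BSE Pool.Agent.GRA

variable {n : ℕ}

/-- the polynomial `∑ γ_j X^j (1-X)^(k-j)` -/
noncomputable def pol (γ : ℕ → ℂ) (k : ℕ) : Polynomial ℂ :=
  ∑ j ∈ range (k + 1), Polynomial.C (γ j) * (Polynomial.X ^ j * (1 - Polynomial.X) ^ (k - j))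

theorem natDegree_one_sub : (1 - Polynomial.X : Polynomial ℂ).natDegree ≤ 1 := by
  refine (Polynomial.natDegree_sub_le _ _).trans ?_
  simp

theorem natDegree_pol (γ : ℕ → ℂ) (k : ℕ) : (pol γ k).natDegree ≤ k := by
  unfold pol
  refine Polynomial.natDegree_sum_le_of_forall_le _ _ (fun j hj => ?_)
  have hj' : j ≤ k := by have := Finset.mem_range.mp hj; omega
  refine (Polynomial.natDegree_C_mul_le _ _).trans ?_
  refine (Polynomial.natDegree_mul_le).trans ?_
  have h1 : (Polynomial.X ^ j : Polynomial ℂ).natDegree ≤ j := Polynomial.natDegree_X_pow_le j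
  have h2 : ((1 - Polynomial.X) ^ (k - j) : Polynomial ℂ).natDegree ≤ k - j := by
    refine (Polynomial.natDegree_pow_le).trans ?_
    calc (k - j) * (1 - Polynomial.X : Polynomial ℂ).natDegree ≤ (k - j) * 1 :=
          Nat.mul_le_mul_left _ natDegree_one_sub
      _ = k - j := mul_one _
  omega

theorem coeff_pol (γ : ℕ → ℂ) (k : ℕ) :
    (pol γ k).coeff k = ∑ j ∈ range (k + 1), γ j * (-1) ^ (k - j) := by
  unfold pol
  rw [Polynomial.finsetSum_coeff]
  refine Finset.sum_congr rfl (fun j hj => ?_)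
  have hj' : j ≤ k := by have := Finset.mem_range.mp hj; omega
  rw [Polynomial.coeff_C_mul, Polynomial.coeff_X_pow_mul', if_pos hj']
  have h1 := Polynomial.coeff_pow_of_natDegree_le (m := k - j) natDegree_one_sub
  rw [mul_one] at h1
  rw [h1]
  congr 1
  congr 1
  rw [Polynomial.coeff_sub, Polynomial.coeff_X_one, Polynomial.coeff_one]
  simp

theorem eval_pol (γ : ℕ → ℂ) (k : ℕ) (s : ℂ) :
    (pol γ k).eval s = ∑ j ∈ range (k + 1), γ j * s ^ j * (1 - s) ^ (k - j) := by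
  unfold pol
  rw [Polynomial.eval_finsetSum]
  refine Finset.sum_congr rfl (fun j _ => ?_)
  simp [mul_assoc]

theorem eval_pol' (γ : ℕ → ℂ) (k : ℕ) (h0 : ∑ j ∈ range (k + 1), γ j * (-1) ^ (k - j) = 0)
    (s : ℂ) : ∑ j ∈ range (k + 1), γ j * s ^ j * (1 - s) ^ (k - j) =
      ∑ j ∈ range k, (pol γ k).coeff j * s ^ j := by
  rw [← eval_pol, Polynomial.eval_eq_sum_range' (Nat.lt_succ_of_le (natDegree_pol γ k)),
    Finset.sum_range_succ, coeff_pol, h0, zero_mul, add_zero]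

theorem col_norm (g : UU n) (l : Fin n) :
    ∑ i, ‖(g : Matrix (Fin n) (Fin n) ℂ) i l‖ ^ 2 = 1 := by
  have h1 : (star (g : Matrix (Fin n) (Fin n) ℂ) * (g : Matrix (Fin n) (Fin n) ℂ)) l l = 1 := by
    rw [(Matrix.mem_unitaryGroup_iff'.mp g.2)]
    simp
  rw [Matrix.mul_apply] at h1
  have h2 : ((∑ i, ‖(g : Matrix (Fin n) (Fin n) ℂ) i l‖ ^ 2 : ℝ) : ℂ) = 1 := by
    rw [← h1]
    push_cast
    refine Finset.sum_congr rfl (fun i _ => ?_)
    rw [Matrix.star_apply]
    exact (Complex.conj_mul' _).symm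
  exact_mod_cast h2

theorem cont_inner (σ : URep n) (h x : σ.Sp) :
    Continuous fun g : UU n => (inner ℂ (σ.op g h) x : ℂ) :=
  ((ORT.continuous_op σ).clm_apply continuous_const).inner continuous_const

theorem cont_entry (i j : Fin n) :
    Continuous fun g : UU n => (g : Matrix (Fin n) (Fin n) ℂ) i j :=
  (continuous_apply_apply i j).comp continuous_subtype_val

theorem arr_diag (σ : URep n) (h x : σ.Sp) (l : Fin n) (j : ℕ) :
    arr σ h l j x (fun _ => l) (fun _ => l) =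
      ∫ g : UU n, (inner ℂ (σ.op g h) x : ℂ) *
        ((‖(g : Matrix (Fin n) (Fin n) ℂ) l l‖ ^ 2 : ℝ) : ℂ) ^ j ∂(haarU n) := by
  unfold arr
  congr 1
  funext g
  rw [Finset.prod_const, Finset.card_univ, Fintype.card_fin, Complex.conj_mul']
  push_cast
  rfl

/-- KNZ -/
theorem knz (hKEX : KEXStmt) (hKZO : KZOStmt) : KNZStmt := by
  intro n σ h l m hlm hl hE k hlow hne H
  obtain ⟨γ, h1, h2⟩ := hKZO n σ h l m hlm hl k
  have e1 := h1 1 1 1 (-1)
  rw [H] at e1
  have e2 : ∑ j ∈ range (k + 1), γ j * (-1) ^ (k - j) = 0 := by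
    rw [e1]
    refine Finset.sum_congr rfl (fun j _ => ?_)
    simp
  have e3 : ∀ g : UU n, sph σ h l k h
      (rk (fun i => (g : Matrix (Fin n) (Fin n) ℂ) i l)
        (fun i => (g : Matrix (Fin n) (Fin n) ℂ) i l)) =
      ∑ j ∈ range k, (pol γ k).coeff j *
        ((‖(g : Matrix (Fin n) (Fin n) ℂ) l l‖ ^ 2 : ℝ) : ℂ) ^ j := by
    intro g
    rw [h2 hE (fun i => (g : Matrix (Fin n) (Fin n) ℂ) i l) (col_norm g l)]
    exact eval_pol' γ k e2 _
  have e4 := (hKEX n σ h l k).2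
  have e5 : ∫ g : UU n, (inner ℂ (σ.op g h) h : ℂ) * conj (sph σ h l k h
      (rk (fun i => (g : Matrix (Fin n) (Fin n) ℂ) i l)
        (fun i => (g : Matrix (Fin n) (Fin n) ℂ) i l))) ∂(haarU n) = 0 := by
    have e6 : (fun g : UU n => (inner ℂ (σ.op g h) h : ℂ) * conj (sph σ h l k h
      (rk (fun i => (g : Matrix (Fin n) (Fin n) ℂ) i l)
        (fun i => (g : Matrix (Fin n) (Fin n) ℂ) i l)))) =
        fun g : UU n => ∑ j ∈ range k, conj ((pol γ k).coeff j) *
          ((inner ℂ (σ.op g h) h : ℂ) *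
            ((‖(g : Matrix (Fin n) (Fin n) ℂ) l l‖ ^ 2 : ℝ) : ℂ) ^ j) := by
      funext g
      rw [e3 g, map_sum, Finset.mul_sum]
      refine Finset.sum_congr rfl (fun j _ => ?_)
      rw [map_mul, map_pow, Complex.conj_ofReal]
      ring
    rw [e6, integral_finsetSum]
    · refine Finset.sum_eq_zero (fun j hj => ?_)
      rw [integral_const_mul, ← arr_diag, hlow j (Finset.mem_range.mp hj), mul_zero]
    · intro j _
      refine FIN.int_contC ?_
      refine continuous_const.mul ((cont_inner σ h h).mul (Continuous.pow ?_ j))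
      exact Complex.continuous_ofReal.comp ((cont_entry l l).norm.pow 2)
  rw [e5] at e4
  have e7 : ∑ I : Fin k → Fin n, ∑ J : Fin k → Fin n, ‖arr σ h l k h I J‖ ^ 2 = 0 := by
    exact_mod_cast e4
  obtain ⟨I, J, hIJ⟩ := hne
  have e8 := (Finset.sum_eq_zero_iff_of_nonneg
    (fun I _ => Finset.sum_nonneg (fun J _ => sq_nonneg ‖arr σ h l k h I J‖))).mp e7 I
    (Finset.mem_univ I)
  have e9 := (Finset.sum_eq_zero_iff_of_nonneg
    (fun J _ => sq_nonneg ‖arr σ h l k h I J‖)).mp e8 J (Finset.mem_univ J)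
  exact hIJ (norm_eq_zero.mp (pow_eq_zero_iff (two_ne_zero) |>.mp e9))

end Pool.Agent.GRA.H89
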