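import Pool.Agent.GRA.StmtsK
import Pool.Agent.Helper47_BSE.Fin

/-!
# Squad GRA, row KB1
-/

set_option autoImplicit false

open MeasureTheory Matrix Finset
open scoped ComplexConjugate

namespace Pool.Agent.GRA.H89

open Pool.Agent.Helper64_FR Pool.Agent.UTR Pool.Agent.BSE Pool.Agent.GRA

variable {n : ℕ}

theorem cont_entryB (B : Finset (Fin n)) (i j : Fin n) :
    Continuous fun A : UB B => ((A : UU n) : Matrix (Fin n) (Fin n) ℂ) i j := by
  have h1 : Continuous fun A : UB B => (A : UU n) := continuous_subtype_val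
  have h2 : Continuous fun g : UU n => (g : Matrix (Fin n) (Fin n) ℂ) i j :=
    (continuous_apply_apply i j).comp continuous_subtype_val
  exact h2.comp h1

theorem int_contB (B : Finset (Fin n)) {f : UB B → ℂ} (hf : Continuous f) :
    Integrable f (haarB B) := by
  have : IsProbabilityMeasure (haarB B) := H76.haarB_prob B
  exact hf.integrable_of_hasCompactSupport (HasCompactSupport.of_compactSpace _)

/-- a row of an element of `U_B` is a unit vector -/
theorem row_one (B : Finset (Fin n)) {b : Fin n} (hb : b ∈ B) (A : UB B) :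
    ∑ j ∈ B, ‖((A : UU n) : Matrix (Fin n) (Fin n) ℂ) b j‖ ^ 2 = 1 := by
  rw [← H76.col_one B hb A⁻¹]
  refine Finset.sum_congr rfl (fun j _ => ?_)
  have h : (((A⁻¹ : UB B) : UU n) : Matrix (Fin n) (Fin n) ℂ) j b =
      conj (((A : UU n) : Matrix (Fin n) (Fin n) ℂ) b j) := rfl
  rw [h, RCLike.norm_conj]

/-- the first moment -/
theorem m1 (B : Finset (Fin n)) (b : Fin n) (hb : b ∈ B) (c : Fin n → ℝ) :
    ∫ A : UB B, ((∑ j ∈ B, ‖((A : UU n) : Matrix (Fin n) (Fin n) ℂ) j b‖ ^ 2 * c j : ℝ) : ℂ)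
      ∂(haarB B) = (((∑ j ∈ B, c j) / B.card : ℝ) : ℂ) := by
  have hprob : IsProbabilityMeasure (haarB B) := H76.haarB_prob B
  have h1 : ∀ b' ∈ B, ∫ A : UB B, ((∑ i ∈ B,
      ‖((A : UU n) : Matrix (Fin n) (Fin n) ℂ) i b'‖ ^ 2 * c i : ℝ) : ℂ) ∂(haarB B) =
      ∫ A : UB B, ((∑ j ∈ B, ‖((A : UU n) : Matrix (Fin n) (Fin n) ℂ) j b‖ ^ 2 * c j : ℝ) : ℂ)
        ∂(haarB B) := by
    intro b' hb'
    have h := H47.sc1 n B b hb 1 (Pi.single b' 1) (Pi.single b' 1) c
    simp only [pow_one] at h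
    have e1 : ∑ i ∈ B, conj ((Pi.single b' 1 : Fin n → ℂ) i) * (Pi.single b' 1 : Fin n → ℂ) i =
        1 := by
      rw [Finset.sum_eq_single b']
      · simp
      · intro i _ hi
        simp [Pi.single_eq_of_ne hi]
      · intro hh
        exact absurd hb' hh
    rw [e1, one_mul] at h
    rw [← h]
    congr 1
    funext A
    push_cast
    refine Finset.sum_congr rfl (fun i _ => ?_)
    have e2 : (((A : UU n) : Matrix (Fin n) (Fin n) ℂ) *ᵥ (Pi.single b' 1)) i =
        ((A : UU n) : Matrix (Fin n) (Fin n) ℂ) i b' := by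
      rw [Matrix.mulVec_single_one]
      rfl
    rw [e2, mul_assoc, Complex.conj_mul']
    ring
  have h2 : ∑ b' ∈ B, ∫ A : UB B, ((∑ i ∈ B,
      ‖((A : UU n) : Matrix (Fin n) (Fin n) ℂ) i b'‖ ^ 2 * c i : ℝ) : ℂ) ∂(haarB B) =
      ((∑ j ∈ B, c j : ℝ) : ℂ) := by
    rw [← integral_finsetSum]
    · have e3 : (fun A : UB B => ∑ b' ∈ B, ((∑ i ∈ B,
          ‖((A : UU n) : Matrix (Fin n) (Fin n) ℂ) i b'‖ ^ 2 * c i : ℝ) : ℂ)) =
          fun _ => ((∑ j ∈ B, c j : ℝ) : ℂ) := by
        funext A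
        rw [← Complex.ofReal_sum, Finset.sum_comm]
        congr 1
        refine Finset.sum_congr rfl (fun i hi => ?_)
        rw [← Finset.sum_mul, row_one B hi A, one_mul]
      rw [e3, integral_const]
      simp
    · intro b' _
      refine int_contB B (Complex.continuous_ofReal.comp ?_)
      exact continuous_finsetSum _ (fun i _ => ((cont_entryB B i b').norm.pow 2).mul
        continuous_const)
  rw [Finset.sum_congr rfl h1, Finset.sum_const, nsmul_eq_mul] at h2
  have hc : (B.card : ℂ) ≠ 0 := by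
    rw [Nat.cast_ne_zero]
    exact Finset.card_ne_zero.2 ⟨b, hb⟩
  rw [Complex.ofReal_div, Complex.ofReal_natCast, eq_div_iff hc, mul_comm]
  exact h2

theorem lin_int (B : Finset (Fin n)) (ξ : Fin n → ℂ) (c : Fin n → ℝ) :
    ∫ A : UB B, (∑ i, ξ i * ((TB B (A : UU n) c i : ℝ) : ℂ)) ∂(haarB B) =
      ∑ i, ξ i * ((c i - H47.dv B c i : ℝ) : ℂ) := by
  have hprob : IsProbabilityMeasure (haarB B) := H76.haarB_prob B
  rw [integral_finsetSum]
  · refine Finset.sum_congr rfl (fun i _ => ?_)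
    rw [integral_const_mul]
    congr 1
    by_cases hi : i ∈ B
    · have e1 : (fun A : UB B => ((TB B (A : UU n) c i : ℝ) : ℂ)) = fun A : UB B =>
          ((∑ j ∈ B, ‖((A : UU n) : Matrix (Fin n) (Fin n) ℂ) j (B.min' ⟨i, hi⟩)‖ ^ 2 * c j : ℝ) :
            ℂ) := by
        funext A
        unfold TB
        rw [dif_pos hi]
      rw [e1, m1 B _ (Finset.min'_mem B ⟨i, hi⟩), H47.dv_of_mem hi]
      congr 1
      ring
    · have e1 : (fun A : UB B => ((TB B (A : UU n) c i : ℝ) : ℂ)) = fun _ => ((c i : ℝ) : ℂ) := by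
        funext A
        unfold TB
        rw [dif_neg hi]
      rw [e1, integral_const, H47.dv_of_notMem hi]
      simp
  · intro i _
    refine int_contB B (continuous_const.mul (Complex.continuous_ofReal.comp ?_))
    by_cases hi : i ∈ B
    · have e1 : (fun A : UB B => TB B (A : UU n) c i) = fun A : UB B =>
          ∑ j ∈ B, ‖((A : UU n) : Matrix (Fin n) (Fin n) ℂ) j (B.min' ⟨i, hi⟩)‖ ^ 2 * c j := by
        funext A
        unfold TB
        rw [dif_pos hi]
      rw [e1]
      exact continuous_finsetSum _ (fun j _ => ((cont_entryB B j _).norm.pow 2).mul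
        continuous_const)
    · have e1 : (fun A : UB B => TB B (A : UU n) c i) = fun _ => c i := by
        funext A
        unfold TB
        rw [dif_neg hi]
      rw [e1]
      exact continuous_const

theorem fin_real (w : Finset (Fin n) → ℝ) (μ x : ℝ) (hμ : OneBody w μ) (r : Fin n → ℝ)
    (h0 : ∑ i, r i = 0) (hr : ∃ i, r i ≠ 0)
    (h : ∀ c : Fin n → ℝ, ∑ B : Finset (Fin n), w B * ∑ i, r i * H47.dv B c i =
      x * ∑ i, r i * c i) : μ ≤ x := by
  have h1 := h r
  have h2 := hμ r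
  have e1 : ∀ i, H47.dv Finset.univ r i = r i := by
    intro i
    rw [H47.dv_of_mem (Finset.mem_univ i), h0]
    simp
  have e2 : ∑ i, H47.dv Finset.univ r i ^ 2 = ∑ i, r i * r i :=
    Finset.sum_congr rfl (fun i _ => by rw [e1 i, sq])
  have e3 : ∀ B : Finset (Fin n), ∑ i, r i * H47.dv B r i = ∑ i, H47.dv B r i ^ 2 := by
    intro B
    have := H47.dv_mul_eq B r r
    calc ∑ i, r i * H47.dv B r i = ∑ i, H47.dv B r i * r i :=
          Finset.sum_congr rfl (fun i _ => mul_comm _ _)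
      _ = _ := this
      _ = _ := Finset.sum_congr rfl (fun i _ => (sq _).symm)
  rw [e2] at h2
  rw [Finset.sum_congr rfl (fun B _ => by rw [e3 B])] at h1
  rw [h1] at h2
  have h3 : 0 < ∑ i, r i * r i := by
    obtain ⟨i, hi⟩ := hr
    refine Finset.sum_pos' (fun j _ => mul_self_nonneg _) ⟨i, Finset.mem_univ i, ?_⟩
    exact mul_self_pos.mpr hi
  exact le_of_mul_le_mul_right h2 h3

/-- KB1 -/
theorem kb1 : KB1Stmt := by
  intro n hn ρ hρ w hw μ hμ x v hv hx
  obtain ⟨-, hr⟩ := H47.red n 1 hn ρ hρ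
  rcases hr w hw μ hμ x v hv hx with h | ⟨f, ⟨N, a, y, hy0, hf⟩, ⟨c0, hc0⟩, hE⟩
  · exact h
  have hfξ : ∀ c : Fin n → ℝ, f c = ∑ i, (∑ t, a t * y t i) * (c i : ℂ) := by
    intro c
    rw [hf c]
    simp only [pow_one, Finset.mul_sum, Finset.sum_mul]
    rw [Finset.sum_comm]
    refine Finset.sum_congr rfl (fun i _ => Finset.sum_congr rfl (fun t _ => ?_))
    ring
  have hξ0 : ∑ i, (∑ t, a t * y t i) = 0 := by
    rw [Finset.sum_comm]
    refine Finset.sum_eq_zero (fun t _ => ?_)
    rw [← Finset.mul_sum, hy0 t, mul_zero]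
  generalize hξ : (fun i => ∑ t, a t * y t i) = ξ at hfξ hξ0
  have hξi : ∀ i, (∑ t, a t * y t i) = ξ i := fun i => congrFun hξ i
  simp only [hξi] at hfξ hξ0
  have hEE : ∀ c : Fin n → ℝ, ∑ B : Finset (Fin n), (w B : ℂ) *
      ∑ i, ξ i * ((H47.dv B c i : ℝ) : ℂ) = (x : ℂ) * ∑ i, ξ i * (c i : ℂ) := by
    intro c
    have h := hE c
    rw [hfξ c] at h
    rw [← h]
    refine Finset.sum_congr rfl (fun B _ => ?_)
    congr 1
    have e1 : (fun A : UB B => f (TB B (A : UU n) c)) =
        fun A : UB B => ∑ i, ξ i * ((TB B (A : UU n) c i : ℝ) : ℂ) := by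
      funext A
      exact hfξ _
    rw [e1, lin_int, ← Finset.sum_sub_distrib]
    refine Finset.sum_congr rfl (fun i _ => ?_)
    push_cast
    ring
  by_cases hre : ∃ i, (ξ i).re ≠ 0
  · refine fin_real w μ x hμ (fun i => (ξ i).re) ?_ hre (fun c => ?_)
    · have := congrArg Complex.re hξ0
      rwa [Complex.re_sum, Complex.zero_re] at this
    · have := congrArg Complex.re (hEE c)
      simpa only [Complex.re_sum, Complex.re_ofReal_mul, Complex.re_mul_ofReal] using this
  · have him : ∃ i, (ξ i).im ≠ 0 := by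
      by_contra hcon
      push Not at hre hcon
      refine hc0 ?_
      rw [hfξ]
      refine Finset.sum_eq_zero (fun i _ => ?_)
      have : ξ i = 0 := Complex.ext (hre i) (hcon i)
      rw [this, zero_mul]
    refine fin_real w μ x hμ (fun i => (ξ i).im) ?_ him (fun c => ?_)
    · have := congrArg Complex.im hξ0
      rwa [Complex.im_sum, Complex.zero_im] at this
    · have := congrArg Complex.im (hEE c)
      simpa only [Complex.im_sum, Complex.im_ofReal_mul, Complex.im_mul_ofReal] using this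

end Pool.Agent.GRA.H89
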